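import Pool.Agent.H477.O.Stm

set_option autoImplicit false

/-!
# Project O, part OLOG: flatness of the logarithmic derivative
-/

open Complex Filter Topology Metric Set

namespace Pool.Agent.H120.OLOG

open Pool.Agent.H477.O

theorem ball_re {c w : ℂ} {r : ℝ} (h : w ∈ closedBall c r) :
    c.re - r ≤ w.re ∧ w.re ≤ c.re + r ∧ |w.im - c.im| ≤ r := by
  rw [mem_closedBall, dist_eq_norm] at h
  have h1 := (Complex.abs_re_le_norm (w - c)).trans h
  have h2 := (Complex.abs_im_le_norm (w - c)).trans h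
  rw [Complex.sub_re, abs_le] at h1
  rw [Complex.sub_im] at h2
  exact ⟨by linarith [h1.1], by linarith [h1.2], h2⟩

theorem OLOG_proof (h1 : S_FLATLOG) (h2 : S_OFAR) (h3 : S_OCR) : S_OLOG := by
  intro a K j R δ e hδ hδ1 he hR
  by_cases ha : 0 < a
  swap
  · exact ⟨1, le_rfl, fun X M ℓ y h => absurd h.ha ha⟩
  obtain ⟨K1, ℓ1, hK1, hℓ1, far⟩ := h2 a K j R R
  obtain ⟨K2, hK2, cr⟩ := h3 a K j R R
  have hj : (0 : ℝ) ≤ j := Nat.cast_nonneg j
  obtain ⟨ℓ2, hℓ2, fl⟩ := h1 (a + j + 3) (δ / 2) (K1 + K2 + 1) e (by positivity) (by linarith) (by linarith) he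
  refine ⟨max (max ℓ1 ℓ2) (K1 / e), le_trans hℓ1 ((le_max_left _ _).trans (le_max_left _ _)), ?_⟩
  intro X M ℓ y hX hℓ b hb hba hZ z hz1 hz2 hz3
  have l1 : ℓ1 ≤ ℓ := ((le_max_left _ _).trans (le_max_left _ _)).trans hℓ
  have l2 : ℓ2 ≤ ℓ := ((le_max_right _ _).trans (le_max_left _ _)).trans hℓ
  have l3 : K1 ≤ e * ℓ := by
    have := (le_max_right _ _).trans hℓ
    rwa [div_le_iff₀ he, mul_comm] at this
  have l4 : 1 ≤ ℓ := hℓ1.trans l1
  by_cases hc : 1 / 2 + a + j ≤ z.re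
  · obtain ⟨g1, g2, -, -⟩ := far X M ℓ y hX l1 z hc hz2 (by linarith)
    exact ⟨g1, g2.trans l3⟩
  push Not at hc
  have hfd : Differentiable ℂ (iteratedDeriv j X) :=
    (hX.diff.contDiff (n := ((j + 1 : ℕ) : WithTop ℕ∞))).differentiable_iteratedDeriv j
      (by exact_mod_cast Nat.lt_succ_self j)
  set f := iteratedDeriv j X with hf
  set h : ℂ → ℂ := fun w => f w * Complex.exp (-ℓ * w) with hh
  have hed : Differentiable ℂ (fun w : ℂ => Complex.exp (-ℓ * w)) := by fun_prop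
  have hhd : Differentiable ℂ h := hfd.mul hed
  have hlog : ∀ w, f w ≠ 0 → logDeriv h w = logDeriv f w - ℓ := by
    intro w hw
    rw [hh, logDeriv_mul (f := f) (g := fun w : ℂ => Complex.exp (-ℓ * w)) w hw (Complex.exp_ne_zero _) (hfd w) (hed w)]
    have h4 : HasDerivAt (fun w : ℂ => Complex.exp (-ℓ * w)) (Complex.exp (-ℓ * w) * (-ℓ * 1)) w :=
      ((hasDerivAt_id w).const_mul (-(ℓ : ℂ))).cexp
    rw [logDeriv_apply (fun w : ℂ => Complex.exp (-ℓ * w)), h4.deriv, mul_one, mul_div_assoc, mul_comm, div_mul_cancel₀ _ (Complex.exp_ne_zero _)]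
    ring
  have hnorm : ∀ w, ‖h w‖ = ‖f w‖ * Real.exp (-(ℓ * w.re)) := by
    intro w
    rw [hh]
    show ‖f w * Complex.exp (-ℓ * w)‖ = _
    rw [norm_mul, Complex.norm_exp]
    congr 2
    simp
  set c : ℂ := ⟨1 / 2 + b + δ / 2 + (a + j + 3), z.im⟩ with hcd
  have cre : c.re = 1 / 2 + b + δ / 2 + (a + j + 3) := rfl
  have cim : c.im = z.im := rfl
  have im_b : ∀ w : ℂ, |w.im - c.im| ≤ a + j + 3 → |w.im - y| ≤ R := by
    intro w hw
    rw [cim] at hw
    calc |w.im - y| = |(w.im - z.im) + (z.im - y)| := by ring_nf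
      _ ≤ |w.im - z.im| + |z.im - y| := abs_add_le _ _
      _ ≤ R := by linarith
  have hball : ∀ w ∈ closedBall c (a + j + 3), f w ≠ 0 ∧ |w.re - 1 / 2| ≤ R ∧ |w.im - y| ≤ R ∧ 0 ≤ w.re := by
    intro w hw
    obtain ⟨w1, w2, w3⟩ := ball_re hw
    rw [cre] at w1 w2
    refine ⟨hZ w (by linarith) (by linarith) (im_b w w3), ?_, im_b w w3, by linarith⟩
    rw [abs_le]
    constructor <;> linarith
  have hcfar := far X M ℓ y hX l1 c (by rw [cre]; linarith) (by rw [cre]; linarith)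
    (im_b c (by rw [sub_self, abs_zero]; linarith))
  have hflat := fl ℓ l2 h c (fun w _ => hhd.analyticAt w) (fun w hw => mul_ne_zero (hball w hw).1 (Complex.exp_ne_zero _))
    (fun w hw => by
      obtain ⟨w1, w2, w3, w4⟩ := hball w hw
      have w5 := cr X M ℓ y hX l4 w w2 w3
      rw [hnorm, hnorm]
      have w6 : Real.exp (-(ℓ * w.re)) ≤ 1 := Real.exp_le_one_iff.mpr (by nlinarith)
      calc ‖f w‖ * Real.exp (-(ℓ * w.re)) ≤ (M * Real.exp (K2 * ℓ)) * 1 :=
            mul_le_mul w5 w6 (Real.exp_pos _).le (mul_nonneg hX.hM.le (Real.exp_pos _).le)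
        _ = M * Real.exp (K2 * ℓ) := mul_one _
        _ ≤ M * Real.exp ((K1 + K2 + 1) * ℓ + (ℓ * (c.re - 1 / 2) - K1) + -(ℓ * c.re)) := by
            refine mul_le_mul_of_nonneg_left (Real.exp_le_exp.mpr ?_) hX.hM.le
            nlinarith
        _ = Real.exp ((K1 + K2 + 1) * ℓ) * (M * Real.exp (ℓ * (c.re - 1 / 2) - K1) * Real.exp (-(ℓ * c.re))) := by
            rw [Real.exp_add, Real.exp_add]
            ring
        _ ≤ _ := by
            refine mul_le_mul_of_nonneg_left ?_ (Real.exp_pos _).le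
            exact mul_le_mul_of_nonneg_right hcfar.2.2.1 (Real.exp_pos _).le)
    (fun w hw => by
      obtain ⟨w1, w2, w3⟩ := ball_re hw
      rw [cre] at w1 w2
      have w4 := far X M ℓ y hX l1 w (by linarith) (by linarith) (im_b w (by linarith))
      rw [hlog w w4.1]
      exact w4.2.1.trans (by linarith))
    z (by
      rw [mem_closedBall, dist_eq_norm]
      have h5 : z - c = ((z.re - c.re : ℝ) : ℂ) := by
        apply Complex.ext
        · simp
        · simp [cim]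
      rw [h5, Complex.norm_real, Real.norm_eq_abs, cre, abs_of_nonpos (by linarith)]
      linarith)
  have hfz : f z ≠ 0 := hZ z (by linarith) (by linarith) (by linarith)
  rw [hlog z hfz] at hflat
  exact ⟨hfz, hflat⟩

end Pool.Agent.H120.OLOG
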